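import Pool.Agent.Helper53.SL.St

/-!
# Project SL: module SAL
-/

set_option autoImplicit false

open Polynomial Filter Topology MeasureTheory Set

namespace Pool.Agent.Helper87.SL

open Pool.Agent.Helper53.SL

theorem fn_eq (n : ℕ) : FN n = X ^ (n + 3) + -X ^ (n + 1) + -X ^ n + X ^ 3 + X ^ 2 + -1 := by
  unfold FN
  ring

theorem fn_monic {n : ℕ} (hn : 1 ≤ n) : (FN n).Monic := by
  unfold FN
  have h1 : (X ^ 3 - X - 1 : ℤ[X]).Monic := by monicity!
  have h2 : (X ^ n * (X ^ 3 - X - 1) : ℤ[X]).Monic := (monic_X_pow n).mul h1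
  refine h2.add_of_left ?_
  have d1 : (X ^ 3 - X - 1 : ℤ[X]).natDegree = 3 := by compute_degree!
  have d2 : (X ^ n * (X ^ 3 - X - 1) : ℤ[X]).natDegree = n + 3 := by
    rw [(monic_X_pow n).natDegree_mul h1, d1, natDegree_X_pow]
  have d3 : (X ^ 3 + X ^ 2 - 1 : ℤ[X]).degree ≤ 3 := by compute_degree
  rw [degree_eq_natDegree h2.ne_zero, d2]
  refine d3.trans_lt ?_
  exact_mod_cast (by omega : 3 < n + 3)

theorem card_add (p q : ℤ[X]) : (p + q).support.card ≤ p.support.card + q.support.card :=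
  (Finset.card_le_card support_add).trans (Finset.card_union_le _ _)

theorem card_Xp (k : ℕ) : (X ^ k : ℤ[X]).support.card ≤ 1 := by
  rw [support_X_pow]
  simp

theorem fn_card (n : ℕ) : (FN n).support.card ≤ 6 := by
  rw [fn_eq]
  have a := card_add (X ^ (n + 3) + -X ^ (n + 1) + -X ^ n + X ^ 3 + X ^ 2) (-1)
  have b := card_add (X ^ (n + 3) + -X ^ (n + 1) + -X ^ n + X ^ 3) (X ^ 2)
  have c := card_add (X ^ (n + 3) + -X ^ (n + 1) + -X ^ n) (X ^ 3)
  have d := card_add (X ^ (n + 3) + -X ^ (n + 1)) (-X ^ n)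
  have e := card_add (X ^ (n + 3)) (-X ^ (n + 1))
  rw [support_neg] at a d e
  have h1 := card_Xp (n + 3)
  have h2 := card_Xp (n + 1)
  have h3 := card_Xp n
  have h4 := card_Xp 3
  have h5 := card_Xp 2
  have h6 := card_Xp 0
  rw [pow_zero] at h6
  omega

theorem fn_aeval {K : Type} [CommRing K] [Algebra ℤ K] (n : ℕ) (z : K) :
    aeval z (FN n) = z ^ n * (z ^ 3 - z - 1) + (z ^ 3 + z ^ 2 - 1) := by
  simp [FN]

theorem fn_ne {n : ℕ} (hn : 1 ≤ n) {z : ℂ} (h : aeval z (FN n) = 0) : z ≠ 0 := by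
  rintro rfl
  rw [fn_aeval] at h
  rw [zero_pow (by omega)] at h
  norm_num at h

theorem fn_inv {n : ℕ} {z : ℂ} (hz : z ≠ 0) (h : aeval z (FN n) = 0) : aeval z⁻¹ (FN n) = 0 := by
  rw [fn_aeval] at h ⊢
  have e : (z⁻¹ ^ n * (z⁻¹ ^ 3 - z⁻¹ - 1) + (z⁻¹ ^ 3 + z⁻¹ ^ 2 - 1)) * z ^ (n + 3) =
      -(z ^ n * (z ^ 3 - z - 1) + (z ^ 3 + z ^ 2 - 1)) := by
    have h1 : z⁻¹ ^ n * z ^ n = 1 := by rw [← mul_pow, inv_mul_cancel₀ hz, one_pow]
    have h2 : z⁻¹ * z = 1 := inv_mul_cancel₀ hz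
    have h3 : z⁻¹ ^ 3 * z ^ 3 = 1 := by rw [← mul_pow, h2, one_pow]
    have h4 : z⁻¹ ^ 2 * z ^ 3 = z := by
      have : z⁻¹ ^ 2 * z ^ 3 = (z⁻¹ * z) ^ 2 * z := by ring
      rw [this, h2]; ring
    have h5 : z⁻¹ * z ^ 3 = z ^ 2 := by
      have : z⁻¹ * z ^ 3 = (z⁻¹ * z) * z ^ 2 := by ring
      rw [this, h2]; ring
    calc (z⁻¹ ^ n * (z⁻¹ ^ 3 - z⁻¹ - 1) + (z⁻¹ ^ 3 + z⁻¹ ^ 2 - 1)) * z ^ (n + 3)
        = (z⁻¹ ^ n * z ^ n) * (z⁻¹ ^ 3 * z ^ 3 - z⁻¹ * z ^ 3 - z ^ 3)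
          + (z⁻¹ ^ 3 * z ^ 3 + z⁻¹ ^ 2 * z ^ 3 - z ^ 3) * z ^ n := by ring
      _ = _ := by rw [h1, h3, h4, h5]; ring
  rw [h, neg_zero] at e
  rcases mul_eq_zero.1 e with h1 | h1
  · exact h1
  · exact absurd h1 (pow_ne_zero _ hz)

theorem cx_eval (A : ℤ[X]) (z : ℂ) : (cx A).eval z = aeval z A := by
  unfold cx
  rw [eval_map, aeval_def]
  rfl

theorem max_one {x : ℝ} (h : x ≤ 1) : max 1 x = 1 := max_eq_left h

/-- the Mahler measure -/
theorem fn_mahler {n : ℕ} (hn : 1 ≤ n) {τ : ℝ} (h1 : 1 < τ) (h2 : aeval τ (FN n) = 0)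
    (h3 : aeval τ (derivative (FN n)) ≠ 0) (h4 : ∀ z : ℂ, aeval z (FN n) = 0 → z ≠ (τ : ℂ) → ‖z‖ ≤ 1) :
    (cx (FN n)).mahlerMeasure = τ := by
  have hm : (cx (FN n)).Monic := (fn_monic hn).map _
  have hr : (cx (FN n)).IsRoot (τ : ℂ) := by
    show (cx (FN n)).eval (τ : ℂ) = 0
    rw [cx_eval]
    have := congrArg (algebraMap ℝ ℂ) h2
    rw [map_zero, ← aeval_algebraMap_apply] at this
    exact this
  have hd : ¬ (cx (FN n)).derivative.IsRoot (τ : ℂ) := by
    intro h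
    apply h3
    have e : (cx (FN n)).derivative = cx (derivative (FN n)) := by
      unfold cx; rw [derivative_map]
    rw [e] at h
    have h5 : (cx (derivative (FN n))).eval (τ : ℂ) = 0 := h
    rw [cx_eval] at h5
    have h6 : aeval ((algebraMap ℝ ℂ) τ) (derivative (FN n)) = 0 := h5
    rw [aeval_algebraMap_apply] at h6
    exact (map_eq_zero _).1 h6
  have hmem : (τ : ℂ) ∈ (cx (FN n)).roots := (mem_roots hm.ne_zero).2 hr
  have hcount : (cx (FN n)).roots.count (τ : ℂ) = 1 := by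
    rw [count_roots]
    have a1 : ¬ 1 < (cx (FN n)).rootMultiplicity (τ : ℂ) := by
      intro h
      exact hd ((one_lt_rootMultiplicity_iff_isRoot hm.ne_zero).1 h).2
    have a2 : 0 < (cx (FN n)).rootMultiplicity (τ : ℂ) := (rootMultiplicity_pos hm.ne_zero).2 hr
    omega
  rw [mahlerMeasure_eq_leadingCoeff_mul_prod_roots, hm.leadingCoeff, norm_one, one_mul,
    ← Multiset.cons_erase hmem, Multiset.map_cons, Multiset.prod_cons]
  have e1 : max 1 ‖(τ : ℂ)‖ = τ := by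
    rw [Complex.norm_real, Real.norm_of_nonneg (by linarith)]
    exact max_eq_right h1.le
  have e2 : (((cx (FN n)).roots.erase (τ : ℂ)).map fun a => max 1 ‖a‖).prod = 1 := by
    apply Multiset.prod_eq_one
    intro x hx
    obtain ⟨a, ha, rfl⟩ := Multiset.mem_map.1 hx
    have hne : a ≠ (τ : ℂ) := by
      rintro rfl
      have := Multiset.count_erase_self (τ : ℂ) (cx (FN n)).roots
      rw [hcount] at this
      exact absurd (Multiset.count_pos.2 ha) (by omega)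
    have hroot := (mem_roots hm.ne_zero).1 (Multiset.mem_of_mem_erase ha)
    have h7 : (cx (FN n)).eval a = 0 := hroot
    rw [cx_eval] at h7
    exact max_eq_left (h4 a h7 hne)
  rw [e1, e2, mul_one]

/-- a monic integer polynomial: the sum of the complex roots is an integer -/
theorem sum_int (P : ℤ[X]) (hP : P.Monic) : ∃ k : ℤ, (cx P).roots.sum = (k : ℂ) := by
  have hm : (cx P).Monic := hP.map _
  have h1 := (IsAlgClosed.splits (cx P)).nextCoeff_eq_neg_sum_roots_of_monic hm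
  refine ⟨-P.nextCoeff, ?_⟩
  have h2 : (cx P).nextCoeff = (P.nextCoeff : ℂ) := by
    unfold cx
    rw [nextCoeff_map (by exact RingHom.injective_int _)]
    rfl
  rw [h2] at h1
  push_cast
  rw [h1]
  ring

theorem fn_salem {n : ℕ} (hn : 1 ≤ n) {τ : ℝ} (h1 : 1 < τ) (h1' : τ < 3 / 2) (h2 : aeval τ (FN n) = 0)
    (h4 : ∀ z : ℂ, aeval z (FN n) = 0 → z ≠ (τ : ℂ) → ‖z‖ ≤ 1) : IsSalem τ := by
  have hint : IsIntegral ℤ τ := ⟨FN n, fn_monic hn, by rw [← aeval_def]; exact h2⟩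
  have hconj : ∀ z : ℂ, aeval z (minpoly ℚ τ) = 0 → aeval z (FN n) = 0 := by
    intro z hz
    have hdvd : minpoly ℚ τ ∣ (FN n).map (algebraMap ℤ ℚ) := by
      apply minpoly.dvd
      rw [aeval_map_algebraMap]
      exact h2
    obtain ⟨g, hg⟩ := hdvd
    have := congrArg (aeval z) hg
    rw [aeval_map_algebraMap, map_mul, hz, zero_mul] at this
    exact this
  refine ⟨hint, h1, fun z hz hne => h4 z (hconj z hz) hne, ?_⟩
  by_contra hcon
  push Not at hcon
  -- the conjugates are τ and 1/τ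
  have htwo : ∀ z : ℂ, aeval z (minpoly ℚ τ) = 0 → z = (τ : ℂ) ∨ z = (τ : ℂ)⁻¹ := by
    intro z hz
    by_cases hne : z = (τ : ℂ)
    · exact Or.inl hne
    · right
      have hz' := hconj z hz
      have hz0 := fn_ne hn hz'
      have hle := h4 z hz' hne
      have hlt : ‖z‖ < 1 := lt_of_le_of_ne hle (hcon z hz)
      have hi := fn_inv hz0 hz'
      have hgt : 1 < ‖z⁻¹‖ := by
        rw [norm_inv]
        exact one_lt_inv_iff₀.2 ⟨norm_pos_iff.2 hz0, hlt⟩
      have : z⁻¹ = (τ : ℂ) := by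
        by_contra h
        exact absurd (h4 _ hi h) (not_le.2 hgt)
      rw [← this, inv_inv]
  have hmz : minpoly ℚ τ = (minpoly ℤ τ).map (algebraMap ℤ ℚ) :=
    minpoly.isIntegrallyClosed_eq_field_fractions' ℚ hint
  have hcx : cx (minpoly ℤ τ) = (minpoly ℚ τ).map (algebraMap ℚ ℂ) := by
    rw [hmz, Polynomial.map_map]
    unfold cx
    congr 1
  have hmon : (minpoly ℤ τ).Monic := minpoly.monic hint
  have hcm : (cx (minpoly ℤ τ)).Monic := hmon.map _
  have hnd : (cx (minpoly ℤ τ)).roots.Nodup := by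
    rw [hcx]
    apply nodup_roots
    apply Separable.map
    exact (minpoly.irreducible (hint.tower_top)).separable
  have hev : ∀ z : ℂ, z ∈ (cx (minpoly ℤ τ)).roots ↔ aeval z (minpoly ℚ τ) = 0 := by
    intro z
    rw [mem_roots hcm.ne_zero, IsRoot.def, hcx, eval_map_algebraMap]
  have hτ : (τ : ℂ) ∈ (cx (minpoly ℤ τ)).roots := by
    rw [hev]
    have h5 : aeval ((algebraMap ℝ ℂ) τ) (minpoly ℚ τ) = 0 := by
      rw [aeval_algebraMap_apply, minpoly.aeval, map_zero]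
    exact h5
  obtain ⟨k, hk⟩ := sum_int (minpoly ℤ τ) hmon
  have hsum : (cx (minpoly ℤ τ)).roots.sum = ∑ z ∈ (cx (minpoly ℤ τ)).roots.toFinset, z := by
    rw [Finset.sum_multiset_count]
    refine Finset.sum_congr rfl fun z hz => ?_
    rw [Multiset.count_eq_one_of_mem hnd (Multiset.mem_toFinset.1 hz), one_smul]
  have hne : (τ : ℂ) ≠ (τ : ℂ)⁻¹ := by
    intro h
    have h6 : τ = τ⁻¹ := by exact_mod_cast h
    have h7 : τ⁻¹ < 1 := inv_lt_one_of_one_lt₀ h1
    linarith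
  have h8 : τ⁻¹ < 1 := inv_lt_one_of_one_lt₀ h1
  have h9 : 0 < τ⁻¹ := by positivity
  have h10 : τ * τ⁻¹ = 1 := mul_inv_cancel₀ (by linarith)
  by_cases hm : (τ : ℂ)⁻¹ ∈ (cx (minpoly ℤ τ)).roots
  · have hfs : (cx (minpoly ℤ τ)).roots.toFinset = {(τ : ℂ), (τ : ℂ)⁻¹} := by
      ext z
      rw [Multiset.mem_toFinset, Finset.mem_insert, Finset.mem_singleton]
      constructor
      · intro h
        exact htwo z ((hev z).1 h)
      · rintro (rfl | rfl)
        · exact hτ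
        · exact hm
    rw [hsum, hfs, Finset.sum_pair hne] at hk
    have hk' : τ + τ⁻¹ = (k : ℝ) := by exact_mod_cast hk
    have hk1 : (2 : ℝ) < k := by
      rw [← hk']
      nlinarith [mul_pos (sub_pos.2 h1) (sub_pos.2 h8)]
    have hk2 : (k : ℝ) < 3 := by rw [← hk']; linarith
    have hk3 : (2 : ℤ) < k := by exact_mod_cast hk1
    have hk4 : k < 3 := by exact_mod_cast hk2
    omega
  · have hfs : (cx (minpoly ℤ τ)).roots.toFinset = {(τ : ℂ)} := by
      ext z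
      rw [Multiset.mem_toFinset, Finset.mem_singleton]
      constructor
      · intro h
        rcases htwo z ((hev z).1 h) with h' | h'
        · exact h'
        · rw [h'] at h
          exact absurd h hm
      · rintro rfl
        exact hτ
    rw [hsum, hfs, Finset.sum_singleton] at hk
    have hk' : τ = (k : ℝ) := by exact_mod_cast hk
    have hk1 : (1 : ℝ) < k := by rw [← hk']; exact h1
    have hk2 : (k : ℝ) < 2 := by rw [← hk']; linarith
    have hk3 : (1 : ℤ) < k := by exact_mod_cast hk1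
    have hk4 : k < 2 := by exact_mod_cast hk2
    omega

theorem hSal (h1 : StRt) : StSal := by
  intro θ hθ
  rw [accPt_iff_nhds]
  intro U hU
  obtain ⟨δ, hδ, hsub⟩ := Metric.mem_nhds_iff.1 hU
  obtain ⟨N, hN⟩ := h1 θ hθ δ hδ
  obtain ⟨τ, a1, a2, a3, a4, a5, a6, a7⟩ := hN (max N 1) (le_max_left _ _)
  have hn : 1 ≤ max N 1 := le_max_right _ _
  refine ⟨τ, ⟨hsub (by rw [Metric.mem_ball, Real.dist_eq]; exact a2), ?_⟩, a1⟩
  exact ⟨fn_salem hn a3 a4 a5 a7, a4, FN (max N 1), fn_card _, a5, fn_mahler hn a3 a5 a6 a7⟩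

end Pool.Agent.Helper87.SL
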